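import Pool.Agent.MVO.StmtsN

/-!
# Squad MVO, block N, row GTN (helper9)
-/

set_option autoImplicit false

namespace Pool.Agent.MVO.H9

open Pool.Agent.Helper14_MV Pool.Agent.Helper2_MV

theorem last_asm_succ {k l : ℕ} {B : ℕ → List ℕ} {C : List ℕ} {c : ℕ} (hc : c = 0 ∨ c = 1)
    (hl : B l = C ++ [c]) (hlk : l ≤ k) (h0 : ∀ j, l < j → j ≤ k → B j = []) :
    ((asm k B).filter (fun c => decide (c = 0 ∨ c = 1))).getLast? = some c := by
  induction k with
  | zero =>
    have : l = 0 := by omega
    subst this
    rw [asm, hl, List.filter_append, List.filter_cons_of_pos (by simpa using hc), List.filter_nil,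
      List.getLast?_append]
    simp
  | succ k ih =>
    rcases Nat.lt_or_ge k l with h | h
    · have : l = k + 1 := by omega
      subst this
      rw [asm, hl, List.filter_append, List.filter_cons_of_neg (by simp), List.filter_append,
        List.filter_cons_of_pos (by simpa using hc), List.filter_nil, ← List.append_assoc,
        List.getLast?_append]
      simp
    · rw [asm, h0 (k + 1) (by omega) le_rfl, List.filter_append,
        List.filter_cons_of_neg (by simp), List.filter_nil, List.append_nil]
      exact ih h fun j h1 h2 => h0 j h1 (by omega)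

theorem max_sp {k l : ℕ} {a : ℕ → ℕ} (h : (sp k a).max = (l : WithBot ℕ)) :
    1 ≤ a l ∧ ∀ j, l < j → j ≤ k → a j = 0 := by
  constructor
  · have h1 := Finset.mem_of_max h
    rw [sp, Finset.mem_filter, Nat.cast_id] at h1
    exact Nat.one_le_iff_ne_zero.2 h1.2
  · intro j h1 h2
    by_contra h3
    have h4 : j ∈ sp k a := by
      rw [sp, Finset.mem_filter, Finset.mem_range]
      exact ⟨by omega, h3⟩
    have h5 := Finset.le_max_of_eq h4 h
    rw [Nat.cast_id] at h5
    omega

theorem gtn : GtnStmt := by
  intro k l T _ hL hlk a b hT hB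
  obtain ⟨-, -, ha, hb⟩ := hL a b hT
  obtain ⟨ha1, ha0⟩ := max_sp ha
  obtain ⟨hb1, hb0⟩ := max_sp hb
  have h1 := gam_self (hB fun _ => false)
  have hQ : QT k T (FreeMonoid.ofList (w2 k a b fun _ => false)) := by
    refine ⟨fun j => bl (a j) (b j) false, rfl, ?_, ?_, ?_⟩
    · intro j _ c hc
      simp only [bl, Bool.false_eq_true, if_false, List.mem_append, List.mem_replicate] at hc
      omega
    · have e1 : (fun j => (bl (a j) (b j) false).count 0) = a := by
        funext j
        simp [bl, List.count_replicate]
      have e2 : (fun j => (bl (a j) (b j) false).count 1) = b := by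
        funext j
        simp [bl, List.count_replicate]
      rw [e1, e2]
      exact hT
    · show ((asm k fun j => bl (a j) (b j) false).filter _).getLast? = some 1
      refine last_asm_succ (C := List.replicate (a l) 0 ++ List.replicate (b l - 1) 1)
        (Or.inr rfl) ?_ hlk ?_
      · show bl (a l) (b l) false = _
        obtain ⟨n, hn⟩ : ∃ n, b l = n + 1 := ⟨b l - 1, by omega⟩
        rw [hn]
        simp [bl, List.replicate_succ']
      · intro j h2 h3
        show bl (a j) (b j) false = []
        rw [ha0 j h2 h3, hb0 j h2 h3]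
        rfl
  obtain ⟨B, -, -, -, hlast⟩ := h1.1 hQ
  have h2 : ((w2 k a b (flp (fun _ => false) l)).filter
      (fun c => decide (c = 0 ∨ c = 1))).getLast? = some 0 := by
    refine last_asm_succ (C := List.replicate (b l) 1 ++ List.replicate (a l - 1) 0)
      (Or.inl rfl) ?_ hlk ?_
    · show bl (a l) (b l) (flp (fun _ => false) l l) = _
      obtain ⟨n, hn⟩ : ∃ n, a l = n + 1 := ⟨a l - 1, by omega⟩
      rw [hn]
      simp [bl, flp, List.replicate_succ']
    · intro j h2 h3
      show bl (a j) (b j) _ = []
      rw [ha0 j h2 h3, hb0 j h2 h3]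
      simp [bl]
  have h3 := hlast.symm.trans h2
  simp at h3

end Pool.Agent.MVO.H9
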